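import Mathlib

namespace Pool.Agent.Results.MP_b94b02_co.Cex

open Finset Polynomial

/-- The number of excedances of a permutation. -/
def exc {n : ℕ} (σ : Equiv.Perm (Fin n)) : ℕ := #{i | i < σ i}

/-- The number of permutations of `n` points with sign `s` and `k` excedances. -/
def cnt (s : ℤˣ) (n k : ℕ) : ℕ :=
  #{σ : Equiv.Perm (Fin n) | Equiv.Perm.sign σ = s ∧ exc σ = k}

/-- The excedance polynomial of the permutations of sign `s`. -/
noncomputable def A (s : ℤˣ) (n : ℕ) : ℝ[X] := ∑ k ∈ range (n + 1), C (cnt s n k : ℝ) * X ^ k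

/-- All complex roots are real. -/
def RealRooted (p : ℝ[X]) : Prop := ∀ z : ℂ, aeval z p = 0 → z.im = 0

lemma vals : cnt 1 5 0 = 1 ∧ cnt 1 5 1 = 11 ∧ cnt 1 5 2 = 36 ∧ cnt 1 5 3 = 11 ∧ cnt 1 5 4 = 1 ∧
    cnt 1 5 5 = 0 := by
  decide +kernel

theorem result : ¬ ∀ n : ℕ, 5 ≤ n → RealRooted (A 1 n) ∧ RealRooted (A (-1) n) := by
  intro h
  have h5 := (h 5 le_rfl).1
  obtain ⟨h0, h1, h2, h3, h4, h6⟩ := vals
  have hd : (X ^ 4 + 11 * X ^ 3 + 36 * X ^ 2 + 11 * X + 1 : ℂ[X]).degree = 4 := by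
    compute_degree!
  obtain ⟨z, hz⟩ := Complex.exists_root (f := X ^ 4 + 11 * X ^ 3 + 36 * X ^ 2 + 11 * X + 1)
    (by rw [hd]; norm_num)
  have hz' : z ^ 4 + 11 * z ^ 3 + 36 * z ^ 2 + 11 * z + 1 = 0 := by simpa using hz
  have him := h5 z (by
    simp only [A, sum_range_succ, sum_range_zero, h0, h1, h2, h3, h4, h6]
    simp
    linear_combination hz')
  have hr : z = (z.re : ℂ) := Complex.ext (by simp) (by simp [him])
  rw [hr] at hz'
  have : z.re ^ 4 + 11 * z.re ^ 3 + 36 * z.re ^ 2 + 11 * z.re + 1 = 0 := by exact_mod_cast hz'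
  have hne : z.re ≠ 0 := by
    intro e
    rw [e] at this
    norm_num at this
  nlinarith [sq_nonneg (z.re ^ 2 + 11 / 2 * z.re + 1), sq_pos_of_ne_zero hne]

end Pool.Agent.Results.MP_b94b02_co.Cex
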